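import Pool.Agent.Helper49.LT.StA

/-!
Project LT (MP_b21509_co), module AFF: affine images.
-/

set_option autoImplicit false

open MeasureTheory Set Filter Metric
open Helper49.LT Helper97.CB

namespace Pool.Agent.Helper73.LT

/-- the linear part of `aff` -/
noncomputable def Lm (α β : ℂ) : ℂ →ₗ[ℝ] ℂ where
  toFun z := α * z + β * (starRingEnd ℂ) z
  map_add' z w := by
    rw [map_add]
    ring
  map_smul' c z := by
    simp only [Complex.real_smul, map_mul, Complex.conj_ofReal, RingHom.id_apply]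
    ring

/-- the inverse of `Lm` -/
noncomputable def Gm (α β : ℂ) : ℂ →ₗ[ℝ] ℂ where
  toFun y := ((starRingEnd ℂ) α * y - β * (starRingEnd ℂ) y) / ((‖α‖ ^ 2 - ‖β‖ ^ 2 : ℝ) : ℂ)
  map_add' z w := by
    rw [map_add]
    ring
  map_smul' c z := by
    simp only [Complex.real_smul, map_mul, Complex.conj_ofReal, RingHom.id_apply]
    ring

theorem Lm_apply (α β z : ℂ) : Lm α β z = α * z + β * (starRingEnd ℂ) z := rfl

theorem Gm_apply (α β y : ℂ) : Gm α β y =
    ((starRingEnd ℂ) α * y - β * (starRingEnd ℂ) y) / ((‖α‖ ^ 2 - ‖β‖ ^ 2 : ℝ) : ℂ) := rfl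

theorem D_pos {α β : ℂ} (h : ‖β‖ < ‖α‖) : 0 < ‖α‖ ^ 2 - ‖β‖ ^ 2 := by
  have h0 : 0 ≤ ‖β‖ := norm_nonneg _
  nlinarith

theorem D_cast (α β : ℂ) : ((‖α‖ ^ 2 - ‖β‖ ^ 2 : ℝ) : ℂ) =
    α * (starRingEnd ℂ) α - β * (starRingEnd ℂ) β := by
  rw [Complex.mul_conj, Complex.mul_conj, Complex.sq_norm, Complex.sq_norm]
  push_cast
  rfl

theorem L_G {α β : ℂ} (h : ‖β‖ < ‖α‖) (y : ℂ) : Lm α β (Gm α β y) = y := by
  have hD : ((‖α‖ ^ 2 - ‖β‖ ^ 2 : ℝ) : ℂ) ≠ 0 := by
    exact_mod_cast (D_pos h).ne'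
  rw [Lm_apply, Gm_apply, map_div₀, Complex.conj_ofReal, map_sub, map_mul, map_mul,
    Complex.conj_conj, Complex.conj_conj]
  have e : α * (((starRingEnd ℂ) α * y - β * (starRingEnd ℂ) y) / ((‖α‖ ^ 2 - ‖β‖ ^ 2 : ℝ) : ℂ))
      + β * ((α * (starRingEnd ℂ) y - (starRingEnd ℂ) β * y) / ((‖α‖ ^ 2 - ‖β‖ ^ 2 : ℝ) : ℂ))
      = (α * (starRingEnd ℂ) α - β * (starRingEnd ℂ) β) * y
        / ((‖α‖ ^ 2 - ‖β‖ ^ 2 : ℝ) : ℂ) := by
    ring
  rw [e, ← D_cast]
  field_simp

theorem G_L {α β : ℂ} (h : ‖β‖ < ‖α‖) (z : ℂ) : Gm α β (Lm α β z) = z := by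
  have hD : ((‖α‖ ^ 2 - ‖β‖ ^ 2 : ℝ) : ℂ) ≠ 0 := by
    exact_mod_cast (D_pos h).ne'
  rw [Lm_apply, Gm_apply, map_add, map_mul, map_mul, Complex.conj_conj]
  have e : ((starRingEnd ℂ) α * (α * z + β * (starRingEnd ℂ) z)
      - β * ((starRingEnd ℂ) α * (starRingEnd ℂ) z + (starRingEnd ℂ) β * z))
      = (α * (starRingEnd ℂ) α - β * (starRingEnd ℂ) β) * z := by
    ring
  rw [e, ← D_cast]
  field_simp

theorem aff_eq (α β b z : ℂ) : aff α β b z = Lm α β z + b := rfl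

theorem mem_image {α β b : ℂ} (h : ‖β‖ < ‖α‖) (K : Set ℂ) (y : ℂ) :
    y ∈ aff α β b '' K ↔ Gm α β (y - b) ∈ K := by
  constructor
  · rintro ⟨z, hz, rfl⟩
    rw [aff_eq, add_sub_cancel_right, G_L h]
    exact hz
  · intro hy
    refine ⟨_, hy, ?_⟩
    rw [aff_eq, L_G h, sub_add_cancel]

theorem cr_L (α β z w : ℂ) : cr (Lm α β z) (Lm α β w) = (‖α‖ ^ 2 - ‖β‖ ^ 2) * cr z w := by
  rw [Lm_apply, Lm_apply, Complex.sq_norm, Complex.sq_norm, Complex.normSq_apply,
    Complex.normSq_apply]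
  simp only [cr, Complex.add_re, Complex.add_im, Complex.mul_re, Complex.mul_im, Complex.conj_re,
    Complex.conj_im]
  ring

theorem det_L (α β : ℂ) : LinearMap.det (Lm α β) = ‖α‖ ^ 2 - ‖β‖ ^ 2 := by
  rw [← LinearMap.det_toMatrix Complex.basisOneI, Matrix.det_fin_two, Complex.sq_norm,
    Complex.sq_norm, Complex.normSq_apply, Complex.normSq_apply]
  simp only [LinearMap.toMatrix_apply, Complex.coe_basisOneI, Complex.coe_basisOneI_repr, Lm_apply]
  simp
  ring

theorem continuous_G (α β : ℂ) : Continuous (Gm α β) := LinearMap.continuous_of_finiteDimensional _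

theorem continuous_L (α β : ℂ) : Continuous (Lm α β) := LinearMap.continuous_of_finiteDimensional _

theorem image_eq (α β b : ℂ) (K : Set ℂ) :
    aff α β b '' K = (fun y => y + b) '' (Lm α β '' K) := by
  rw [image_image]
  rfl

theorem hAFF : StAff := by
  intro K α β b hK hαβ
  have hD := D_pos hαβ
  refine ⟨⟨?_, ?_, ?_⟩, ?_, ?_⟩
  · rw [image_eq]
    have h1 := (hK.1.linear_image (Lm α β)).translate b
    have h2 : (fun y => y + b) '' (Lm α β '' K) = (fun x => b + x) '' (Lm α β '' K) := by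
      refine image_congr (fun y _ => ?_)
      exact add_comm y b
    rw [h2]
    exact h1
  · exact hK.2.1.image ((continuous_L α β).add continuous_const)
  · obtain ⟨x, hx⟩ := hK.2.2
    refine ⟨aff α β b x, ?_⟩
    rw [mem_interior]
    refine ⟨(fun y => Gm α β (y - b)) ⁻¹' interior K, ?_, ?_, ?_⟩
    · intro y hy
      exact (mem_image hαβ K y).2 (interior_subset hy)
    · exact isOpen_interior.preimage ((continuous_G α β).comp (continuous_id.sub continuous_const))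
    · change Gm α β (aff α β b x - b) ∈ interior K
      rw [aff_eq, add_sub_cancel_right, G_L hαβ]
      exact hx
  · unfold area
    rw [image_eq, image_add_right, measure_preimage_add_right,
      Measure.addHaar_image_linearMap, det_L, abs_of_pos hD, ENNReal.toReal_mul,
      ENNReal.toReal_ofReal hD.le]
  · rintro B hB P a c γ φ c' f' ⟨h1, h2, h3, h4, h5, m1, m2, m3, m4, m5, m6⟩
    rw [mem_image hαβ] at m1 m2 m3 m4 m5 m6
    have e : cr a c = (‖α‖ ^ 2 - ‖β‖ ^ 2) * cr (Gm α β a) (Gm α β c) := by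
      rw [← cr_L, L_G hαβ, L_G hαβ]
    have hpos : 0 < cr (Gm α β a) (Gm α β c) := by
      rw [e] at h1
      exact (mul_pos_iff_of_pos_left hD).1 h1
    have hsm : ∀ (r : ℝ) (z : ℂ), Gm α β ((r : ℂ) * z) = (r : ℂ) * Gm α β z := by
      intro r z
      have := (Gm α β).map_smul r z
      rwa [Complex.real_smul, Complex.real_smul] at this
    have key := hB (Gm α β (P - b)) (Gm α β a) (Gm α β c) γ φ c' f'
      ⟨hpos, h2, h3, h4, h5, m1, ?_, ?_, ?_, ?_, ?_⟩
    · rw [e]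
      calc (2 + γ + φ) * ((‖α‖ ^ 2 - ‖β‖ ^ 2) * cr (Gm α β a) (Gm α β c))
          = (‖α‖ ^ 2 - ‖β‖ ^ 2) * ((2 + γ + φ) * cr (Gm α β a) (Gm α β c)) := by ring
        _ < (‖α‖ ^ 2 - ‖β‖ ^ 2) * B := mul_lt_mul_of_pos_left key hD
    · rw [← map_add]
      have : P - b + a = P + a - b := by ring
      rw [this]
      exact m2
    · rw [← map_add]
      have : P - b + c = P + c - b := by ring
      rw [this]
      exact m3
    · rw [← map_add, ← map_add]
      have : P - b + a + c = P + a + c - b := by ring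
      rw [this]
      exact m4
    · rw [← hsm, ← hsm, ← map_add, ← map_add]
      have : P - b + ((1 + γ : ℝ) : ℂ) * a + (c' : ℂ) * c
          = P + ((1 + γ : ℝ) : ℂ) * a + (c' : ℂ) * c - b := by ring
      rw [this]
      exact m5
    · rw [← hsm, ← hsm, ← map_sub, ← map_add]
      have : P - b - (φ : ℂ) * a + (f' : ℂ) * c
          = P - (φ : ℂ) * a + (f' : ℂ) * c - b := by ring
      rw [this]
      exact m6

end Pool.Agent.Helper73.LT
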