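import Pool.Agent.Helper69.LT.St
import Pool.Agent.Helper84.LE.BGR
import Pool.Agent.Helper84.LE.BWT

/-!
# LT module Step: one step of the weighted expansion in expectation
-/

set_option autoImplicit false

open scoped BigOperators ENNReal
open Pool.LE Pool.NL

namespace Pool.LT

theorem StepM.ex_sub {V : Type} [DecidableEq V] {R : Type} [CommRing R] [Algebra ℝ R]
    (E : Finset (Sym2 V)) (p : ℝ) (f g : Finset (Sym2 V) → R) :
    Ex E p (fun ω => f ω - g ω) = Ex E p f - Ex E p g := by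
  unfold Ex
  simp only [smul_sub, Finset.sum_sub_distrib]

open Classical in
theorem hStep : SPI → SOne → SStep := by
  intro hPI hOne V _ R _ _ L r E p A v x
  have h1 : DT E p L r A v x = Ex E p (fun ω => mT L r ω v x - mA L r ω A v x) := by
    unfold DT GT GTA
    exact (StepM.ex_sub E p _ _).symm
  have h2 : Ex E p (fun ω => mT L r ω v x - mA L r ω A v x) =
      Ex E p (fun ω => vA L r ω A v x + ∑ ub ∈ drt E,
        (if s(ub.1, ub.2) ∈ ω then
          vA L r (ω.erase s(ub.1, ub.2)) A v ub.1 *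
            mA L r ω (cl ω ub.1 ub.2 v) ub.2 x else 0)) := by
    refine Ex_congr fun ω hω => ?_
    rw [hPI V R L r ω A v x]
    congr 1
    have h3 : drt ω = (drt E).filter (fun ub => s(ub.1, ub.2) ∈ ω) := by
      ext ub
      rw [Finset.mem_filter, mem_drt', mem_drt']
      exact ⟨fun h => ⟨hω h, h⟩, fun h => h.2⟩
    rw [h3, Finset.sum_filter]
  have h5 : Lop E p L r (GTA E p L r) A v x = ∑ ub ∈ drt E, p • Ex E p (fun ω =>
      vA L r (ω.erase s(ub.1, ub.2)) A v ub.1 * GTA E p L r (cl ω ub.1 ub.2 v) ub.2 x) := rfl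
  have h6 : WT E p L r A v x = Ex E p (fun ω => vA L r ω A v x) := rfl
  have h7 : ∀ ub ∈ drt E, Ex E p (fun ω => (if s(ub.1, ub.2) ∈ ω then
          vA L r (ω.erase s(ub.1, ub.2)) A v ub.1 *
            mA L r ω (cl ω ub.1 ub.2 v) ub.2 x else 0)) = p • Ex E p (fun ω =>
      vA L r (ω.erase s(ub.1, ub.2)) A v ub.1 * GTA E p L r (cl ω ub.1 ub.2 v) ub.2 x) := by
    intro ub hub
    rw [← hOne V R L r E p A v x ub.1 ub.2 (mem_drt'.1 hub)]
  rw [h1, h2, Ex_add, Ex_sum, h5, h6, Finset.sum_congr rfl h7]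

end Pool.LT
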